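import Pool.Agent.H87.EBK.Stmts3

/-! Board ebt, row STP4 (copy of `Pool/Agent/H46/EBS/STP3.lean` with the valuation of the new label). -/

set_option autoImplicit false

namespace Pool.EBK

theorem stp4_rich {a b : ℚ} (h : Rich a b) : Rich b a := by
  obtain ⟨h1, c, h2, h3, h4⟩ := h
  exact ⟨⟨h1.2.1, h1.1, by rw [add_comm]; exact h1.2.2⟩, c, ⟨h2.1, h2.2.2, h2.2.1⟩, h4, h3⟩

theorem stp4_aux (hVNE : VNE) (hSTR : STR) (hRCA : RCA) (hRCB : RCB) (hDNL : DNL)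
    (a b y1 y2 : ℚ) (F : Finset ℚ) (hR : Rich a b) (hlt : v a < v b) (h0 : 0 < y1) (h12 : y1 < y2) :
    ∃ c, c ∉ F ∧ y1 < c ∧ c < y2 ∧ Third a b c ∧ Rich a c ∧ Rich b c ∧ v c < v a := by
  have hP := hR.1
  have hβ : v a + 2 ≤ v b := by
    rcases hVNE a b hP with h | h
    · exact h
    · omega
  obtain ⟨k, hka, hkb, hk⟩ := hSTR a b hR
  obtain ⟨n, hn1, hn2⟩ : ∃ n : ℕ, v b - n ≤ k ∧ ∀ f ∈ F, v b - n < v f := by
    refine ⟨(v b - k).toNat + ∑ f ∈ F, (v b - v f).natAbs + 1, ?_, ?_⟩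
    · push_cast
      have h1 : v b - k ≤ ((v b - k).toNat : ℤ) := Int.self_le_toNat _
      have h2 : (0 : ℤ) ≤ ∑ f ∈ F, |v b - v f| := Finset.sum_nonneg fun _ _ => abs_nonneg _
      linarith
    · intro f hf
      have h1 : (v b - v f).natAbs ≤ ∑ f ∈ F, (v b - v f).natAbs :=
        Finset.single_le_sum (f := fun f => (v b - v f).natAbs) (fun _ _ => Nat.zero_le _) hf
      have h3 : v b - v f ≤ ((v b - v f).natAbs : ℤ) := Int.le_natAbs
      have h4 : ((v b - v f).natAbs : ℤ) ≤ ((∑ f ∈ F, (v b - v f).natAbs : ℕ) : ℤ) := by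
        exact_mod_cast h1
      omega
  obtain ⟨t, ht⟩ : ∃ t : ℤ, t = v b - 2 * (2 ^ n * (v b - v a - 1) + 1) := ⟨_, rfl⟩
  have htn : t ≤ v b - n := by
    have h1 : (n : ℤ) < 2 ^ n := by exact_mod_cast Nat.lt_two_pow_self
    have h2 : (2 : ℤ) ^ n * 1 ≤ 2 ^ n * (v b - v a - 1) :=
      mul_le_mul_of_nonneg_left (by omega) (by positivity)
    have h3 : (0 : ℤ) < 2 ^ n := by positivity
    rw [ht]
    linarith
  obtain ⟨c₀, hc₀, hvc₀⟩ := hk (k - t).toNat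
  have hvc₀' : v c₀ = t := by
    rw [hvc₀, Int.toNat_of_nonneg (by omega)]
    ring
  obtain ⟨c, hc, hvc, hc1, hc2⟩ := hDNL a b c₀ y1 y2 hR hc₀ (by omega) (by omega) h0 h12
  have hvc' : v c = t := by rw [hvc, hvc₀']
  have hca : v c < v a := by omega
  refine ⟨c, ?_, hc1, hc2, hc, hRCA a b c hP hc hlt hca, hRCB a b c n hP hc hlt hca ?_, hca⟩
  · intro hF
    have := hn2 c hF
    omega
  · rw [hvc', ht]
    ring

theorem stp4 (hVNE : VNE) (hSTR : STR) (hRCA : RCA) (hRCB : RCB) (hDNL : DNL) : STP4 := by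
  intro h p y1 y2 F hL h0 h12
  obtain ⟨c, h1, h2, h3, h4, _, h6, h7⟩ :=
    stp4_aux hVNE hSTR hRCA hRCB hDNL p h y1 y2 F (stp4_rich hL.1) hL.2 h0 h12
  exact ⟨c, h1, h2, h3, h4.2.1, h6, lt_trans h7 hL.2⟩

end Pool.EBK
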